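import Mathlib

/-!
Singular transitivity does not force a finite-dimensional symmetry group: the product of two
contact distributions on `ℝ³ × ℝ³ = ℝ⁶`.
-/

namespace Pool.Agent.Results.MP_27f38a_gt.ProductContact

open Set MeasureTheory Filter Topology
open scoped ContDiff Manifold

noncomputable section

/-- Lebesgue measure on `[0,1]` -/
def leb : Measure ℝ := volume.restrict (Icc (0 : ℝ) 1)

/-- The Banach space `L²([0,1], ℝᵏ)` of controls (as the `k`-fold power of `L²([0,1])`). -/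
abbrev Control (k : ℕ) : Type := Fin k → Lp ℝ 2 leb

variable {V : Type} [NormedAddCommGroup V] [NormedSpace ℝ V] {k : ℕ}

/-- `γ : [0,1] → V` is the admissible path starting at `q` with control `u`, for the distribution
spanned by the frame `X`: it is continuous and `γ(t) = q + ∫₀ᵗ ∑ᵢ uᵢ(s) Xᵢ(γ(s)) ds`. -/
def IsTrajectory (X : Fin k → V → V) (q : V) (u : Control k) (γ : ℝ → V) : Prop :=
  ContinuousOn γ (Icc 0 1) ∧
    ∀ t ∈ Icc (0 : ℝ) 1, γ t = q + ∫ s in (0 : ℝ)..t, ∑ i, u i s • X i (γ s)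

/-- Near `u` the relation `R` is the graph of a map `F`, and `u` is a critical point of `F`: the
differential of `F` at `u` is not surjective. -/
def IsCriticalAt {U W : Type} [NormedAddCommGroup U] [NormedSpace ℝ U] [NormedAddCommGroup W]
    [NormedSpace ℝ W] (R : U → W → Prop) (u : U) : Prop :=
  ∃ (F : U → W) (A : U →L[ℝ] W), (∀ᶠ v in 𝓝 u, ∀ y, R v y ↔ y = F v) ∧ HasFDerivAt F A u ∧
    ¬ Function.Surjective A

/-- A singular curve of the distribution spanned by the frame `X`: an admissible path `γ` whose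
control `u` is a critical point of the endpoint map, which sends a control `v` to the endpoint
`η(1)` of the admissible path `η` with control `v` and the same starting point `γ(0)`. -/
def IsSingularCurve (X : Fin k → V → V) (γ : ℝ → V) : Prop :=
  ∃ u : Control k, IsTrajectory X (γ 0) u γ ∧
    IsCriticalAt (fun v y => ∃ η, IsTrajectory X (γ 0) v η ∧ η 1 = y) u

/-- Any two points can be joined by a finite concatenation of singular curves. -/
def SingularTransitive (X : Fin k → V → V) : Prop :=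
  ∀ p q : V, Relation.ReflTransGen (fun a b => ∃ γ, IsSingularCurve X γ ∧ γ 0 = a ∧ γ 1 = b) p q

/-- The distribution `Δ` spanned by the frame `X`. -/
def distribution (X : Fin k → V → V) (q : V) : Submodule ℝ V :=
  Submodule.span ℝ (range fun i => X i q)

/-- The symmetry group of a distribution `Δ` on the vector space `V` (`= ℝⁿ`): all smooth
diffeomorphisms `Φ` of `V` with `Φ_* Δ = Δ`. -/
def symmetryGroup (Δ : V → Submodule ℝ V) : Subgroup (Equiv.Perm V) where
  carrier := {Φ | ContDiff ℝ ∞ Φ ∧ ContDiff ℝ ∞ Φ.symm ∧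
    ∀ q, (Δ q).map (fderiv ℝ Φ q : V →ₗ[ℝ] V) = Δ (Φ q)}
  one_mem' := by
    refine ⟨contDiff_id, contDiff_id, fun q => ?_⟩
    have h : fderiv ℝ (⇑(1 : Equiv.Perm V)) q = ContinuousLinearMap.id ℝ _ := by
      have : (⇑(1 : Equiv.Perm V)) = id := rfl
      rw [this, fderiv_id]
    rw [h]
    simp
  mul_mem' := by
    rintro Φ Ψ ⟨h1, h2, h3⟩ ⟨g1, g2, g3⟩
    refine ⟨h1.comp g1, g2.comp h2, fun q => ?_⟩
    have h : fderiv ℝ (⇑(Φ * Ψ)) q = (fderiv ℝ Φ (Ψ q)).comp (fderiv ℝ Ψ q) := by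
      have : (⇑(Φ * Ψ)) = Φ ∘ Ψ := rfl
      rw [this]
      exact fderiv_comp q (h1.differentiable (by simp) _) (g1.differentiable (by simp) _)
    have h' : ((fderiv ℝ Φ (Ψ q)).comp (fderiv ℝ Ψ q) : V →ₗ[ℝ] V) =
      (fderiv ℝ Φ (Ψ q) : V →ₗ[ℝ] V) ∘ₗ (fderiv ℝ Ψ q : V →ₗ[ℝ] V) := rfl
    rw [h, h', Submodule.map_comp, g3 q, h3 (Ψ q)]
    rfl
  inv_mem' := by
    rintro Φ ⟨h1, h2, h3⟩
    refine ⟨h2, h1, fun q => ?_⟩
    have e : Φ (Φ.symm q) = q := Φ.apply_symm_apply q
    have h : (fderiv ℝ Φ.symm q).comp (fderiv ℝ Φ (Φ.symm q)) = ContinuousLinearMap.id ℝ _ := by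
      have h4 : fderiv ℝ (Φ.symm ∘ Φ) (Φ.symm q) =
          (fderiv ℝ Φ.symm (Φ (Φ.symm q))).comp (fderiv ℝ Φ (Φ.symm q)) :=
        fderiv_comp _ (h2.differentiable (by simp) _) (h1.differentiable (by simp) _)
      have h5 : Φ.symm ∘ Φ = id := by ext1 x; simp
      rw [h5, fderiv_id, e] at h4
      exact h4.symm
    have h6 := h3 (Φ.symm q)
    rw [e] at h6
    show (Δ q).map (fderiv ℝ Φ.symm q : V →ₗ[ℝ] V) = Δ (Φ.symm q)
    have h' : (fderiv ℝ Φ.symm q : V →ₗ[ℝ] V) ∘ₗ
        (fderiv ℝ Φ (Φ.symm q) : V →ₗ[ℝ] V) = LinearMap.id := by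
      refine LinearMap.ext fun v => ?_
      exact congrArg (fun f : V →L[ℝ] V => f v) h
    rw [← h6, ← Submodule.map_comp, h', Submodule.map_id]

/-- A group `G` of transformations of `V` is a finite-dimensional Lie group (of transformations):
there are a finite-dimensional real Lie group `L` (modelled on a finite-dimensional space `W`;
neither the Hausdorff property nor second countability is asked for) and a group isomorphism
`φ : L ≃ G` such that `L` acts smoothly through `φ`, and such that every smooth one-parameter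
group of transformations belonging to `G` is a smooth curve in `L`. -/
def IsFiniteDimLieGroup (G : Subgroup (Equiv.Perm V)) : Prop :=
  ∃ (W : Type) (_ : NormedAddCommGroup W) (_ : NormedSpace ℝ W) (_ : FiniteDimensional ℝ W)
    (L : Type) (_ : TopologicalSpace L) (_ : ChartedSpace W L) (_ : Group L)
    (_ : LieGroup 𝓘(ℝ, W) ∞ L) (φ : L ≃* G),
    ContMDiff (𝓘(ℝ, W).prod 𝓘(ℝ, V)) 𝓘(ℝ, V) ∞
      (fun p : L × V => (φ p.1 : Equiv.Perm V) p.2) ∧
    ∀ c : ℝ → G, (∀ s t, c (s + t) = c s * c t) →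
      ContDiff ℝ ∞ (fun p : ℝ × V => (c p.1 : Equiv.Perm V) p.2) →
      ContMDiff 𝓘(ℝ, ℝ) 𝓘(ℝ, W) ∞ (fun t => φ.symm (c t))

/-- Sanity check: the trivial group of transformations is a finite-dimensional Lie group in the
sense of `IsFiniteDimLieGroup` (of dimension `0`). -/
lemma isFiniteDimLieGroup_bot : IsFiniteDimLieGroup (⊥ : Subgroup (Equiv.Perm V)) := by
  let L := EuclideanSpace ℝ (Fin 0)
  let gL : Group L :=
    { mul := fun _ _ => 0
      one := 0
      inv := fun _ => 0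
      mul_assoc := fun _ _ _ => Subsingleton.elim _ _
      one_mul := fun _ => Subsingleton.elim _ _
      mul_one := fun _ => Subsingleton.elim _ _
      inv_mul_cancel := fun _ => Subsingleton.elim _ _ }
  have lL : LieGroup (𝓡 0) ∞ L :=
    { contMDiff_mul := by
        have : (fun p : L × L => p.1 * p.2) = fun _ => (0 : L) := by
          ext1 p; exact Subsingleton.elim _ _
        rw [this]; exact contMDiff_const
      contMDiff_inv := by
        have : (fun p : L => p⁻¹) = fun _ => (0 : L) := by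
          ext1 p; exact Subsingleton.elim _ _
        rw [this]; exact contMDiff_const }
  let φ : L ≃* (⊥ : Subgroup (Equiv.Perm V)) :=
    { toFun := fun _ => 1
      invFun := fun _ => 0
      left_inv := fun _ => Subsingleton.elim _ _
      right_inv := fun _ => Subsingleton.elim _ _
      map_mul' := fun _ _ => (mul_one _).symm }
  refine ⟨L, inferInstance, inferInstance, inferInstance, L, inferInstance, inferInstance, gL, lL,
    φ, ?_, ?_⟩
  · exact contMDiff_snd
  · intro c _ _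
    exact contMDiff_const (c := (0 : L))

/-! ### Primitives of `L²` functions -/

instance : IsProbabilityMeasure leb := ⟨by simp [leb]⟩

/-- `∫₀ᵗ f` -/
def P (f : Lp ℝ 2 leb) (t : ℝ) : ℝ := ∫ s in (0 : ℝ)..t, f s

/-- `∫₀¹ (∫₀ᵗ f) g(t) dt` -/
def B (f g : Lp ℝ 2 leb) : ℝ := ∫ s in (0 : ℝ)..1, P f s * g s

lemma integrable_Lp (f : Lp ℝ 2 leb) :
    Integrable f leb :=
  (Lp.memLp f).integrable (by norm_num)

lemma intervalIntegrable_Lp (f : Lp ℝ 2 leb) {t : ℝ}
    (ht : t ∈ Icc (0 : ℝ) 1) : IntervalIntegrable f volume 0 t := by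
  rw [intervalIntegrable_iff_integrableOn_Icc_of_le ht.1]
  exact IntegrableOn.mono_set (integrable_Lp f) (Icc_subset_Icc le_rfl ht.2)

lemma P_eq (f : Lp ℝ 2 leb) {t : ℝ} (ht : t ∈ Icc (0 : ℝ) 1) :
    P f t = ∫ s in Icc (0:ℝ) t, f s := by
  rw [P, intervalIntegral.integral_of_le ht.1, integral_Icc_eq_integral_Ioc]

lemma integral_abs_le (f : Lp ℝ 2 leb) :
    ∫ s in Icc (0:ℝ) 1, |f s| ≤ ‖f‖ := by
  have h1 : ∫ s in Icc (0:ℝ) 1, |f s| = (eLpNorm f 1 leb).toReal := by
    rw [eLpNorm_one_eq_lintegral_enorm]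
    rw [← integral_norm_eq_lintegral_enorm (integrable_Lp f).aestronglyMeasurable]
    rfl
  rw [h1, Lp.norm_def]
  apply ENNReal.toReal_mono (Lp.eLpNorm_ne_top f)
  exact eLpNorm_le_eLpNorm_of_exponent_le (by norm_num) (Lp.memLp f).aestronglyMeasurable

lemma abs_P_le (f : Lp ℝ 2 leb) {t : ℝ} (ht : t ∈ Icc (0 : ℝ) 1) :
    |P f t| ≤ ‖f‖ := by
  refine le_trans ?_ (integral_abs_le f)
  rw [P_eq f ht]
  refine (abs_integral_le_integral_abs).trans ?_
  apply setIntegral_mono_set (integrable_Lp f).norm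
  · exact ae_of_all _ fun _ => abs_nonneg _
  · exact (Icc_subset_Icc le_rfl ht.2).eventuallyLE

lemma continuousOn_P (f : Lp ℝ 2 leb) :
    ContinuousOn (P f) (Icc 0 1) := by
  have := intervalIntegral.continuousOn_primitive_interval (μ := volume) (a := 0) (b := 1)
    (f := (f : ℝ → ℝ)) (by rw [uIcc_of_le zero_le_one]; exact integrable_Lp f)
  rwa [uIcc_of_le zero_le_one] at this

lemma ae_Icc_of {f g : ℝ → ℝ} (h : f =ᵐ[leb] g) {t : ℝ}
    (ht : t ∈ Icc (0 : ℝ) 1) : f =ᵐ[volume.restrict (Icc (0 : ℝ) t)] g :=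
  ae_restrict_of_ae_restrict_of_subset (Icc_subset_Icc le_rfl ht.2) h

lemma P_add (f g : Lp ℝ 2 leb) {t : ℝ} (ht : t ∈ Icc (0 : ℝ) 1) :
    P (f + g) t = P f t + P g t := by
  rw [P_eq _ ht, P_eq _ ht, P_eq _ ht, ← integral_add]
  · exact integral_congr_ae (ae_Icc_of (Lp.coeFn_add f g) ht)
  · exact IntegrableOn.mono_set (integrable_Lp f) (Icc_subset_Icc le_rfl ht.2)
  · exact IntegrableOn.mono_set (integrable_Lp g) (Icc_subset_Icc le_rfl ht.2)

lemma P_smul (c : ℝ) (f : Lp ℝ 2 leb) {t : ℝ}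
    (ht : t ∈ Icc (0 : ℝ) 1) : P (c • f) t = c * P f t := by
  rw [P_eq _ ht, P_eq _ ht, ← integral_const_mul]
  exact integral_congr_ae (ae_Icc_of (Lp.coeFn_smul c f) ht)

/-- the constant function `c` in `L²([0,1])` -/
def cst (c : ℝ) : Lp ℝ 2 leb :=
  MemLp.toLp (fun _ => c) (memLp_const c)

lemma P_cst (c : ℝ) {t : ℝ} (ht : t ∈ Icc (0 : ℝ) 1) : P (cst c) t = c * t := by
  rw [P_eq _ ht]
  have := integral_congr_ae (ae_Icc_of (MemLp.coeFn_toLp (memLp_const (p := 2)
    (μ := leb) c)) ht)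
  rw [cst, this]
  simp [ht.1]
  ring

lemma P_zero (t : ℝ) (ht : t ∈ Icc (0 : ℝ) 1) : P 0 t = 0 := by
  have := P_smul 0 0 ht
  simpa using this

lemma B_add_left (f f' g : Lp ℝ 2 leb) :
    B (f + f') g = B f g + B f' g := by
  unfold B
  rw [← intervalIntegral.integral_add]
  · apply intervalIntegral.integral_congr
    intro s hs
    rw [uIcc_of_le zero_le_one] at hs
    simp only [P_add f f' hs]
    ring
  · exact (intervalIntegrable_Lp g ⟨zero_le_one, le_rfl⟩).continuousOn_mul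
      (by rw [uIcc_of_le zero_le_one]; exact continuousOn_P f)
  · exact (intervalIntegrable_Lp g ⟨zero_le_one, le_rfl⟩).continuousOn_mul
      (by rw [uIcc_of_le zero_le_one]; exact continuousOn_P f')

lemma B_smul_left (c : ℝ) (f g : Lp ℝ 2 leb) :
    B (c • f) g = c * B f g := by
  unfold B
  rw [← intervalIntegral.integral_const_mul]
  apply intervalIntegral.integral_congr
  intro s hs
  rw [uIcc_of_le zero_le_one] at hs
  simp only [P_smul c f hs]
  ring

lemma B_congr_right {f : Lp ℝ 2 leb} {g h : ℝ → ℝ}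
    (hgh : g =ᵐ[leb] h) :
    ∫ s in (0 : ℝ)..1, P f s * g s = ∫ s in (0 : ℝ)..1, P f s * h s := by
  rw [intervalIntegral.integral_of_le zero_le_one, intervalIntegral.integral_of_le zero_le_one,
    ← integral_Icc_eq_integral_Ioc, ← integral_Icc_eq_integral_Ioc]
  apply integral_congr_ae
  filter_upwards [hgh] with s hs
  rw [hs]

lemma B_add_right (f g g' : Lp ℝ 2 leb) :
    B f (g + g') = B f g + B f g' := by
  have h := B_congr_right (f := f) (Lp.coeFn_add g g')
  unfold B
  rw [h, ← intervalIntegral.integral_add]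
  · apply intervalIntegral.integral_congr
    intro s _
    simp only [Pi.add_apply]
    ring
  · exact (intervalIntegrable_Lp g ⟨zero_le_one, le_rfl⟩).continuousOn_mul
      (by rw [uIcc_of_le zero_le_one]; exact continuousOn_P f)
  · exact (intervalIntegrable_Lp g' ⟨zero_le_one, le_rfl⟩).continuousOn_mul
      (by rw [uIcc_of_le zero_le_one]; exact continuousOn_P f)

lemma B_smul_right (c : ℝ) (f g : Lp ℝ 2 leb) :
    B f (c • g) = c * B f g := by
  have h := B_congr_right (f := f) (Lp.coeFn_smul c g)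
  unfold B
  rw [h, ← intervalIntegral.integral_const_mul]
  apply intervalIntegral.integral_congr
  intro s _
  simp only [Pi.smul_apply, smul_eq_mul]
  ring

lemma abs_B_le (f g : Lp ℝ 2 leb) :
    |B f g| ≤ ‖f‖ * ‖g‖ := by
  unfold B
  rw [intervalIntegral.integral_of_le zero_le_one, ← integral_Icc_eq_integral_Ioc]
  calc |∫ s in Icc (0:ℝ) 1, P f s * g s| ≤ ∫ s in Icc (0:ℝ) 1, |P f s * g s| :=
        abs_integral_le_integral_abs
    _ ≤ ∫ s in Icc (0:ℝ) 1, ‖f‖ * |g s| := by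
        apply integral_mono_of_nonneg
        · exact ae_of_all _ fun _ => abs_nonneg _
        · exact (integrable_Lp g).abs.const_mul _
        · filter_upwards [ae_restrict_mem measurableSet_Icc] with s hs
          rw [abs_mul]
          exact mul_le_mul_of_nonneg_right (abs_P_le f hs) (abs_nonneg _)
    _ = ‖f‖ * ∫ s in Icc (0:ℝ) 1, |g s| := integral_const_mul _ _
    _ ≤ ‖f‖ * ‖g‖ := mul_le_mul_of_nonneg_left (integral_abs_le g) (norm_nonneg _)

lemma isBoundedBilinearMap_B : IsBoundedBilinearMap ℝ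
    (fun p : Lp ℝ 2 leb × Lp ℝ 2 leb =>
      B p.1 p.2) where
  add_left := B_add_left
  smul_left := B_smul_left
  add_right := B_add_right
  smul_right := B_smul_right
  bound := ⟨1, one_pos, fun f g => by rw [one_mul]; exact abs_B_le f g⟩

/-- the functional `f ↦ ∫₀¹ f` on `L²([0,1])` -/
def J : Lp ℝ 2 leb →L[ℝ] ℝ :=
  LinearMap.mkContinuous
    { toFun := fun f => P f 1
      map_add' := fun f g => P_add f g ⟨zero_le_one, le_rfl⟩
      map_smul' := fun c f => P_smul c f ⟨zero_le_one, le_rfl⟩ } 1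
    (fun f => by rw [one_mul]; exact abs_P_le f ⟨zero_le_one, le_rfl⟩)

lemma J_apply (f : Lp ℝ 2 leb) : J f = P f 1 := rfl

/-! ### The frame on `ℝ⁶` and its endpoint map -/

/-- The frame `∂₀, ∂₁ + q₀ ∂₂, ∂₃, ∂₄ + q₃ ∂₅` on `ℝ⁶`; it spans the product of the contact
distributions `ker (dq₂ - q₀ dq₁)` and `ker (dq₅ - q₃ dq₄)` of the two factors `ℝ³`. -/
def frame (i : Fin 4) (q : Fin 6 → ℝ) : Fin 6 → ℝ :=
  (![![1, 0, 0, 0, 0, 0], ![0, 1, q 0, 0, 0, 0], ![0, 0, 0, 1, 0, 0], ![0, 0, 0, 0, 1, q 3]] :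
    Fin 4 → Fin 6 → ℝ) i

/-- the trajectories -/
def traj (q : Fin 6 → ℝ) (u : Control 4) (t : ℝ) : Fin 6 → ℝ :=
  ![q 0 + P (u 0) t, q 1 + P (u 1) t, q 2 + ∫ s in (0 : ℝ)..t, u 1 s * (q 0 + P (u 0) s),
    q 3 + P (u 2) t, q 4 + P (u 3) t, q 5 + ∫ s in (0 : ℝ)..t, u 3 s * (q 3 + P (u 2) s)]

/-- the endpoint map -/
def E (q : Fin 6 → ℝ) (u : Control 4) : Fin 6 → ℝ :=
  ![q 0 + J (u 0), q 1 + J (u 1), q 2 + (q 0 * J (u 1) + B (u 0) (u 1)),
    q 3 + J (u 2), q 4 + J (u 3), q 5 + (q 3 * J (u 3) + B (u 2) (u 3))]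

lemma sum_frame (a : Fin 4 → ℝ) (q : Fin 6 → ℝ) (j : Fin 6) :
    ∑ i, a i * frame i q j = (![a 0, a 1, a 1 * q 0, a 2, a 3, a 3 * q 3] : Fin 6 → ℝ) j := by
  rw [Fin.sum_univ_four]
  fin_cases j <;> simp [frame]

lemma integral_quad (a : ℝ) (f g : Lp ℝ 2 leb) :
    ∫ s in (0 : ℝ)..1, g s * (a + P f s) = a * J g + B f g := by
  have h1 : IntervalIntegrable g volume 0 1 := intervalIntegrable_Lp g ⟨zero_le_one, le_rfl⟩
  have h2 : IntervalIntegrable (fun s => P f s * g s) volume 0 1 :=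
    h1.continuousOn_mul (by rw [uIcc_of_le zero_le_one]; exact continuousOn_P f)
  rw [J_apply, P, B, ← intervalIntegral.integral_const_mul, ← intervalIntegral.integral_add]
  · apply intervalIntegral.integral_congr
    intro s _
    ring
  · exact h1.const_mul a
  · exact h2

lemma frame_smooth (i : Fin 4) : ContDiff ℝ ∞ (frame i) := by
  rw [contDiff_pi]
  intro j
  fin_cases i <;> fin_cases j <;> simp [frame] <;> fun_prop

/-- coordinates of the integral equation -/
lemma integral_frame (u : Control 4) {γ : ℝ → (Fin 6 → ℝ)} (hγ : ContinuousOn γ (Icc 0 1))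
    {t : ℝ} (ht : t ∈ Icc (0 : ℝ) 1) (j : Fin 6) :
    (∫ s in (0 : ℝ)..t, ∑ i, u i s • frame i (γ s)) j =
      ∫ s in (0 : ℝ)..t, (![u 0 s, u 1 s, u 1 s * γ s 0, u 2 s, u 3 s, u 3 s * γ s 3] :
        Fin 6 → ℝ) j := by
  have hint : IntervalIntegrable (fun s => ∑ i, u i s • frame i (γ s)) volume 0 t := by
    have h1 : ∀ i ∈ Finset.univ, IntervalIntegrable (fun s => u i s • frame i (γ s))
        volume 0 t := by
      intro i _
      apply (intervalIntegrable_Lp (u i) ht).smul_continuousOn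
      rw [uIcc_of_le ht.1]
      exact (frame_smooth i).continuous.comp_continuousOn
        (hγ.mono (Icc_subset_Icc le_rfl ht.2))
    have h2 := IntervalIntegrable.sum _ h1
    have e : (fun s => ∑ i, u i s • frame i (γ s)) = ∑ i, fun s => u i s • frame i (γ s) := by
      funext s
      rw [Finset.sum_apply]
    rw [e]
    exact h2
  have h3 := (ContinuousLinearMap.proj (R := ℝ) (φ := fun _ : Fin 6 => ℝ)
    j).intervalIntegral_comp_comm hint
  simp only [ContinuousLinearMap.proj_apply] at h3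
  rw [← h3]
  congr 1
  ext1 s
  rw [Finset.sum_apply]
  exact sum_frame (fun i => u i s) (γ s) j

lemma traj_isTrajectory (q : Fin 6 → ℝ) (u : Control 4) : IsTrajectory frame q u (traj q u) := by
  have hint : ∀ (a : ℝ) (f g : Lp ℝ 2 leb),
      ContinuousOn (fun t => ∫ s in (0 : ℝ)..t, g s * (a + P f s)) (Icc 0 1) := by
    intro a f g
    have h1 : IntervalIntegrable g volume 0 1 := intervalIntegrable_Lp g ⟨zero_le_one, le_rfl⟩
    have h2 : IntervalIntegrable (fun s => g s * (a + P f s)) volume 0 1 :=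
      h1.mul_continuousOn (by
        rw [uIcc_of_le zero_le_one]; exact continuousOn_const.add (continuousOn_P f))
    have := intervalIntegral.continuousOn_primitive_interval (μ := volume) (a := 0) (b := 1)
      (f := fun s => g s * (a + P f s)) (by
        rw [uIcc_of_le zero_le_one]
        rwa [intervalIntegrable_iff_integrableOn_Icc_of_le zero_le_one] at h2)
    rwa [uIcc_of_le zero_le_one] at this
  have hcont : ContinuousOn (traj q u) (Icc 0 1) := by
    rw [continuousOn_pi]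
    intro j
    fin_cases j
    · exact continuousOn_const.add (continuousOn_P _)
    · exact continuousOn_const.add (continuousOn_P _)
    · exact continuousOn_const.add (hint _ _ _)
    · exact continuousOn_const.add (continuousOn_P _)
    · exact continuousOn_const.add (continuousOn_P _)
    · exact continuousOn_const.add (hint _ _ _)
  refine ⟨hcont, ?_⟩
  intro t ht
  ext j
  rw [Pi.add_apply, integral_frame u hcont ht j]
  fin_cases j <;> simp [traj, P]

lemma traj_unique (q : Fin 6 → ℝ) (u : Control 4) (η : ℝ → (Fin 6 → ℝ))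
    (h : IsTrajectory frame q u η) : η 1 = E q u := by
  have h2 : ∀ t ∈ Icc (0:ℝ) 1, ∀ j, η t j = q j + ∫ s in (0 : ℝ)..t,
      (![u 0 s, u 1 s, u 1 s * η s 0, u 2 s, u 3 s, u 3 s * η s 3] : Fin 6 → ℝ) j := by
    intro t ht j
    rw [← integral_frame u h.1 ht j, ← Pi.add_apply, ← h.2 t ht]
  have hx : ∀ t ∈ Icc (0:ℝ) 1, η t 0 = q 0 + P (u 0) t := fun t ht => h2 t ht 0
  have hx' : ∀ t ∈ Icc (0:ℝ) 1, η t 3 = q 3 + P (u 2) t := fun t ht => h2 t ht 3
  have h1 : (1 : ℝ) ∈ Icc (0:ℝ) 1 := ⟨zero_le_one, le_rfl⟩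
  ext j
  fin_cases j
  · exact h2 1 h1 0
  · exact h2 1 h1 1
  · refine (h2 1 h1 2).trans ?_
    show q 2 + ∫ s in (0 : ℝ)..1, u 1 s * η s 0 = q 2 + (q 0 * J (u 1) + B (u 0) (u 1))
    rw [← integral_quad]
    congr 1
    apply intervalIntegral.integral_congr
    intro s hs
    rw [uIcc_of_le zero_le_one] at hs
    simp only [hx s hs]
  · exact h2 1 h1 3
  · exact h2 1 h1 4
  · refine (h2 1 h1 5).trans ?_
    show q 5 + ∫ s in (0 : ℝ)..1, u 3 s * η s 3 = q 5 + (q 3 * J (u 3) + B (u 2) (u 3))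
    rw [← integral_quad]
    congr 1
    apply intervalIntegral.integral_congr
    intro s hs
    rw [uIcc_of_le zero_le_one] at hs
    simp only [hx' s hs]

lemma endpoint_iff (q : Fin 6 → ℝ) (v : Control 4) (y : Fin 6 → ℝ) :
    (∃ η, IsTrajectory frame q v η ∧ η 1 = y) ↔ y = E q v := by
  constructor
  · rintro ⟨η, h, rfl⟩
    exact traj_unique q v η h
  · rintro rfl
    exact ⟨_, traj_isTrajectory q v, traj_unique q v _ (traj_isTrajectory q v)⟩

/-- coordinates of the differential of the endpoint map -/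
def A' (q : Fin 6 → ℝ) (u : Control 4) : Fin 6 → (Control 4 →L[ℝ] ℝ) :=
  ![J.comp (ContinuousLinearMap.proj 0), J.comp (ContinuousLinearMap.proj 1),
    q 0 • J.comp (ContinuousLinearMap.proj 1) +
      (isBoundedBilinearMap_B.deriv (u 0, u 1)).comp
        ((ContinuousLinearMap.proj 0).prod (ContinuousLinearMap.proj 1)),
    J.comp (ContinuousLinearMap.proj 2), J.comp (ContinuousLinearMap.proj 3),
    q 3 • J.comp (ContinuousLinearMap.proj 3) +
      (isBoundedBilinearMap_B.deriv (u 2, u 3)).comp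
        ((ContinuousLinearMap.proj 2).prod (ContinuousLinearMap.proj 3))]

lemma hasFDerivAt_E (q : Fin 6 → ℝ) (u : Control 4) :
    HasFDerivAt (E q) (ContinuousLinearMap.pi (A' q u)) u := by
  have hp : ∀ i : Fin 4, HasFDerivAt (fun v : Control 4 => v i)
      (ContinuousLinearMap.proj (R := ℝ) i) u :=
    fun i => (ContinuousLinearMap.proj (R := ℝ)
      (φ := fun _ : Fin 4 => Lp ℝ 2 leb) i).hasFDerivAt
  have hJ : ∀ i : Fin 4, HasFDerivAt (fun v : Control 4 => J (v i))
      (J.comp (ContinuousLinearMap.proj (R := ℝ) i)) u :=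
    fun i => J.hasFDerivAt.comp u (hp i)
  have hB : ∀ i l : Fin 4, HasFDerivAt (fun v : Control 4 => B (v i) (v l))
      ((isBoundedBilinearMap_B.deriv (u i, u l)).comp
        ((ContinuousLinearMap.proj (R := ℝ) i).prod (ContinuousLinearMap.proj (R := ℝ) l))) u := by
    intro i l
    have h1 : HasFDerivAt (fun p : Lp ℝ 2 leb ×
        Lp ℝ 2 leb => B p.1 p.2)
        (isBoundedBilinearMap_B.deriv (u i, u l)) ((fun v : Control 4 => (v i, v l)) u) :=
      isBoundedBilinearMap_B.hasFDerivAt (u i, u l)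
    exact HasFDerivAt.comp u h1 ((hp i).prodMk (hp l))
  rw [hasFDerivAt_pi']
  intro j
  fin_cases j
  · exact (hJ 0).const_add (q 0)
  · exact (hJ 1).const_add (q 1)
  · exact (((hJ 1).const_mul (q 0)).add (hB 0 1)).const_add (q 2)
  · exact (hJ 2).const_add (q 3)
  · exact (hJ 3).const_add (q 4)
  · exact (((hJ 3).const_mul (q 3)).add (hB 2 3)).const_add (q 5)

lemma B_zero_left (f : Lp ℝ 2 leb) : B 0 f = 0 := by
  have := B_smul_left 0 0 f
  simpa using this

lemma B_zero_right (f : Lp ℝ 2 leb) : B f 0 = 0 := by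
  have := B_smul_right 0 f 0
  simpa using this

/-- Paths which are constant in one of the two factors are singular. -/
lemma isSingularCurve_traj (q : Fin 6 → ℝ) (u : Control 4)
    (hu : (u 0 = 0 ∧ u 1 = 0) ∨ (u 2 = 0 ∧ u 3 = 0)) : IsSingularCurve frame (traj q u) := by
  have h0 : traj q u 0 = q := by
    ext j
    fin_cases j <;> simp [traj, P]
  refine ⟨u, ?_, E q, ContinuousLinearMap.pi (A' q u), ?_, hasFDerivAt_E q u, ?_⟩
  · rw [h0]; exact traj_isTrajectory q u
  · rw [h0]; exact Eventually.of_forall fun v y => endpoint_iff q v y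
  · intro hsurj
    rcases hu with ⟨h1, h2⟩ | ⟨h1, h2⟩
    · obtain ⟨v, hv⟩ := hsurj ![0, 0, 1, 0, 0, 0]
      have e1 : J (v 1) = 0 := congrFun hv 1
      have e2 : q 0 * J (v 1) + (B (u 0) (v 1) + B (v 0) (u 1)) = 1 := congrFun hv 2
      rw [e1, h1, h2, B_zero_left, B_zero_right] at e2
      norm_num at e2
    · obtain ⟨v, hv⟩ := hsurj ![0, 0, 0, 0, 0, 1]
      have e1 : J (v 3) = 0 := congrFun hv 4
      have e2 : q 3 * J (v 3) + (B (u 2) (v 3) + B (v 2) (u 3)) = 1 := congrFun hv 5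
      rw [e1, h1, h2, B_zero_left, B_zero_right] at e2
      norm_num at e2

/-! ### Singular transitivity -/

/-- one singular curve from `a` to `b` -/
def Step (a b : Fin 6 → ℝ) : Prop := ∃ γ, IsSingularCurve frame γ ∧ γ 0 = a ∧ γ 1 = b

lemma J_cst (c : ℝ) : J (cst c) = c := by
  rw [J_apply, P_cst c ⟨zero_le_one, le_rfl⟩, mul_one]

lemma step_of (q : Fin 6 → ℝ) (u : Control 4)
    (hu : (u 0 = 0 ∧ u 1 = 0) ∨ (u 2 = 0 ∧ u 3 = 0)) : Step q (E q u) := by
  refine ⟨traj q u, isSingularCurve_traj q u hu, ?_, traj_unique q u _ (traj_isTrajectory q u)⟩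
  ext j
  fin_cases j <;> simp [traj, P]

lemma step0 (q : Fin 6 → ℝ) (s : ℝ) : Step q ![q 0 + s, q 1, q 2, q 3, q 4, q 5] := by
  have h := step_of q ![cst s, 0, 0, 0] (Or.inr ⟨rfl, rfl⟩)
  convert h using 1
  ext j
  fin_cases j <;> simp [E, J_cst, B_zero_right]

lemma step1 (q : Fin 6 → ℝ) (s : ℝ) : Step q ![q 0, q 1 + s, q 2 + q 0 * s, q 3, q 4, q 5] := by
  have h := step_of q ![0, cst s, 0, 0] (Or.inr ⟨rfl, rfl⟩)
  convert h using 1
  ext j
  fin_cases j <;> simp [E, J_cst, B_zero_left, B_zero_right]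

lemma step2 (q : Fin 6 → ℝ) (s : ℝ) : Step q ![q 0, q 1, q 2, q 3 + s, q 4, q 5] := by
  have h := step_of q ![0, 0, cst s, 0] (Or.inl ⟨rfl, rfl⟩)
  convert h using 1
  ext j
  fin_cases j <;> simp [E, J_cst, B_zero_right]

lemma step3 (q : Fin 6 → ℝ) (s : ℝ) : Step q ![q 0, q 1, q 2, q 3, q 4 + s, q 5 + q 3 * s] := by
  have h := step_of q ![0, 0, 0, cst s] (Or.inl ⟨rfl, rfl⟩)
  convert h using 1
  ext j
  fin_cases j <;> simp [E, J_cst, B_zero_left, B_zero_right]

theorem singularTransitive_frame : SingularTransitive frame := by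
  intro p q
  -- first factor
  have a1 := step0 p (1 - p 0)
  have a2 := step1 ![1, p 1, p 2, p 3, p 4, p 5] (q 2 - p 2)
  have a3 := step0 ![1, p 1 + (q 2 - p 2), q 2, p 3, p 4, p 5] (-1)
  have a4 := step1 ![0, p 1 + (q 2 - p 2), q 2, p 3, p 4, p 5] (q 1 - (p 1 + (q 2 - p 2)))
  have a5 := step0 ![0, q 1, q 2, p 3, p 4, p 5] (q 0)
  -- second factor
  have b1 := step2 ![q 0, q 1, q 2, p 3, p 4, p 5] (1 - p 3)
  have b2 := step3 ![q 0, q 1, q 2, 1, p 4, p 5] (q 5 - p 5)
  have b3 := step2 ![q 0, q 1, q 2, 1, p 4 + (q 5 - p 5), q 5] (-1)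
  have b4 := step3 ![q 0, q 1, q 2, 0, p 4 + (q 5 - p 5), q 5] (q 4 - (p 4 + (q 5 - p 5)))
  have b5 := step2 ![q 0, q 1, q 2, 0, q 4, q 5] (q 3)
  have e : (![q 0, q 1, q 2, q 3, q 4, q 5] : Fin 6 → ℝ) = q := by
    ext j; fin_cases j <;> rfl
  simp only [Matrix.cons_val, add_sub_cancel, one_mul, zero_mul, add_zero, add_neg_cancel,
    zero_add] at a1 a2 a3 a4 a5 b1 b2 b3 b4 b5
  rw [e] at b5
  have := Relation.ReflTransGen.refl (r := Step) (a := p)
  exact (((((((((this.tail a1).tail a2).tail a3).tail a4).tail a5).tail b1).tail b2).tail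
    b3).tail b4).tail b5

/-! ### The symmetry group -/

lemma frame_linearIndependent (q : Fin 6 → ℝ) : LinearIndependent ℝ (fun i => frame i q) := by
  rw [Fintype.linearIndependent_iff]
  intro g hg
  have h : ∀ j, (![g 0, g 1, g 1 * q 0, g 2, g 3, g 3 * q 3] : Fin 6 → ℝ) j = 0 := by
    intro j
    rw [← sum_frame g q j]
    have := congrFun hg j
    simpa [Finset.sum_apply] using this
  intro i
  fin_cases i
  · exact h 0
  · exact h 1
  · exact h 3
  · exact h 4

lemma mem_distribution (q v : Fin 6 → ℝ) :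
    v ∈ distribution frame q ↔ v 2 = v 1 * q 0 ∧ v 5 = v 4 * q 3 := by
  unfold distribution
  rw [Submodule.mem_span_range_iff_exists_fun]
  constructor
  · rintro ⟨c, rfl⟩
    have h : ∀ j, (∑ i, c i • frame i q) j =
        (![c 0, c 1, c 1 * q 0, c 2, c 3, c 3 * q 3] : Fin 6 → ℝ) j := by
      intro j
      rw [← sum_frame c q j]
      simp [Finset.sum_apply]
    rw [h, h, h, h]
    exact ⟨rfl, rfl⟩
  · rintro ⟨h1, h2⟩
    refine ⟨![v 0, v 1, v 3, v 4], ?_⟩
    ext j
    have : (∑ i, (![v 0, v 1, v 3, v 4] : Fin 4 → ℝ) i • frame i q) j =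
        (![v 0, v 1, v 1 * q 0, v 3, v 4, v 4 * q 3] : Fin 6 → ℝ) j := by
      rw [Finset.sum_apply]
      exact sum_frame (![v 0, v 1, v 3, v 4] : Fin 4 → ℝ) q j
    rw [this]
    fin_cases j
    · rfl
    · rfl
    · exact h1.symm
    · rfl
    · rfl
    · exact h2.symm

/-- `q ↦ q + t (m q₁^(m-1), 0, q₁^m, 0, 0, 0)` -/
def sh (m : ℕ) (t : ℝ) (q : Fin 6 → ℝ) : Fin 6 → ℝ :=
  ![q 0 + t * (m * q 1 ^ (m - 1)), q 1, q 2 + t * q 1 ^ m, q 3, q 4, q 5]

lemma sh_sh (m : ℕ) (s t : ℝ) (q : Fin 6 → ℝ) : sh m s (sh m t q) = sh m (s + t) q := by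
  ext j
  fin_cases j <;> simp [sh] <;> ring

lemma sh_zero (m : ℕ) (q : Fin 6 → ℝ) : sh m 0 q = q := by
  ext j
  fin_cases j <;> simp [sh]

/-- `sh m t` as a permutation of `ℝ⁶` -/
def shp (m : ℕ) (t : ℝ) : Equiv.Perm (Fin 6 → ℝ) where
  toFun := sh m t
  invFun := sh m (-t)
  left_inv q := by rw [sh_sh, neg_add_cancel, sh_zero]
  right_inv q := by rw [sh_sh, add_neg_cancel, sh_zero]

lemma contDiff_sh (m : ℕ) : ContDiff ℝ ∞ (fun p : ℝ × (Fin 6 → ℝ) => sh m p.1 p.2) := by
  rw [contDiff_pi]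
  intro j
  fin_cases j <;> simp [sh] <;> fun_prop

lemma contDiff_sh' (m : ℕ) (t : ℝ) : ContDiff ℝ ∞ (sh m t) :=
  (contDiff_sh m).comp (contDiff_const.prodMk contDiff_id)

/-- the differential of `sh m t` -/
lemma fderiv_sh (m : ℕ) (t : ℝ) (q v : Fin 6 → ℝ) : fderiv ℝ (sh m t) q v =
    ![v 0 + t * (m * ((m - 1 : ℕ) * q 1 ^ (m - 1 - 1) * v 1)), v 1,
      v 2 + t * (m * q 1 ^ (m - 1) * v 1), v 3, v 4, v 5] := by
  have hd : DifferentiableAt ℝ (sh m t) q := (contDiff_sh' m t).differentiable (by simp) q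
  have h1 : HasDerivAt (fun s : ℝ => sh m t (q + s • v)) (fderiv ℝ (sh m t) q v) 0 := by
    have hl : HasDerivAt (fun s : ℝ => q + s • v) v 0 := by
      simpa using ((hasDerivAt_id (0:ℝ)).smul_const v).const_add q
    have hd' : HasFDerivAt (sh m t) (fderiv ℝ (sh m t) q) (q + (0:ℝ) • v) := by
      simpa using hd.hasFDerivAt
    exact hd'.comp_hasDerivAt 0 hl
  refine h1.unique ?_
  rw [hasDerivAt_pi]
  have hl : ∀ j, HasDerivAt (fun s : ℝ => q j + s * v j) (v j) 0 := by
    intro j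
    simpa using ((hasDerivAt_id (0:ℝ)).mul_const (v j)).const_add (q j)
  intro j
  fin_cases j
  · have := (hl 0).fun_add ((((hl 1).pow (m - 1)).const_mul (m : ℝ)).const_mul t)
    simpa [sh] using this
  · simpa [sh] using hl 1
  · have := (hl 2).fun_add (((hl 1).pow m).const_mul t)
    simpa [sh] using this
  · simpa [sh] using hl 3
  · simpa [sh] using hl 4
  · simpa [sh] using hl 5

lemma shp_mem (m : ℕ) (t : ℝ) : shp m t ∈ symmetryGroup (distribution frame) := by
  refine ⟨contDiff_sh' m t, contDiff_sh' m (-t), fun q => ?_⟩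
  show (distribution frame q).map
    (fderiv ℝ (sh m t) q : (Fin 6 → ℝ) →ₗ[ℝ] (Fin 6 → ℝ)) = distribution frame (sh m t q)
  ext w
  rw [Submodule.mem_map, mem_distribution]
  constructor
  · rintro ⟨v, hv, rfl⟩
    rw [mem_distribution] at hv
    obtain ⟨h1, h2⟩ := hv
    rw [ContinuousLinearMap.coe_coe, fderiv_sh]
    refine ⟨?_, ?_⟩
    · show v 2 + t * (m * q 1 ^ (m - 1) * v 1) = v 1 * (q 0 + t * (m * q 1 ^ (m - 1)))
      rw [h1]; ring
    · exact h2
  · rintro ⟨h1, h2⟩
    have h1' : w 2 = w 1 * (q 0 + t * (m * q 1 ^ (m - 1))) := h1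
    have h2' : w 5 = w 4 * q 3 := h2
    refine ⟨![w 0 - t * (m * ((m - 1 : ℕ) * q 1 ^ (m - 1 - 1) * w 1)), w 1,
      w 2 - t * (m * q 1 ^ (m - 1) * w 1), w 3, w 4, w 5], ?_, ?_⟩
    · rw [mem_distribution]
      refine ⟨?_, h2'⟩
      show w 2 - t * (m * q 1 ^ (m - 1) * w 1) = w 1 * q 0
      rw [h1']; ring
    · rw [ContinuousLinearMap.coe_coe, fderiv_sh]
      ext j
      fin_cases j <;> simp

/-- the one-parameter group of symmetries generated by `m q₁^(m-1) ∂₀ + q₁^m ∂₂` -/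
def oneParam (m : ℕ) (t : ℝ) : symmetryGroup (distribution frame) := ⟨shp m t, shp_mem m t⟩

lemma oneParam_add (m : ℕ) (s t : ℝ) : oneParam m (s + t) = oneParam m s * oneParam m t := by
  apply Subtype.ext
  apply Equiv.ext
  intro q
  exact (sh_sh m s t q).symm

theorem not_isFiniteDimLieGroup : ¬ IsFiniteDimLieGroup (symmetryGroup (distribution frame)) := by
  rintro ⟨W, _, _, _, L, _, _, _, _, φ, hact, hone⟩
  set d := Module.finrank ℝ W with hd
  have hc : ∀ m, ContMDiff 𝓘(ℝ, ℝ) 𝓘(ℝ, W) ∞ (fun t => φ.symm (oneParam m t)) :=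
    fun m => hone (oneParam m) (oneParam_add m) (contDiff_sh m)
  -- velocities at the identity of `L`
  let w : Fin (d + 1) → W := fun m =>
    mfderiv 𝓘(ℝ, ℝ) 𝓘(ℝ, W) (fun t => φ.symm (oneParam m t)) 0 (1 : ℝ)
  have hw : ¬ LinearIndependent ℝ w := by
    intro hli
    have := hli.fintype_card_le_finrank
    simp [← hd] at this
  obtain ⟨a, ha, i0, hi0⟩ := Fintype.not_linearIndependent_iff.1 hw
  -- evaluate on points of `ℝ⁶`
  have key : ∀ (q : Fin 6 → ℝ), ∑ m : Fin (d + 1), a m * q 1 ^ (m : ℕ) = 0 := by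
    intro q
    have hq : ContMDiff 𝓘(ℝ, W) 𝓘(ℝ, Fin 6 → ℝ) ∞
        (fun g : L => (φ g : Equiv.Perm (Fin 6 → ℝ)) q) :=
      hact.comp (contMDiff_id.prodMk contMDiff_const)
    have e0 : ∀ m, φ.symm (oneParam m 0) = 1 := by
      intro m
      have : oneParam m 0 = 1 := by
        have h := oneParam_add m 0 0
        rw [add_zero] at h
        exact left_eq_mul.1 h
      rw [this, map_one]
    let D : W →L[ℝ] (Fin 6 → ℝ) :=
      mfderiv 𝓘(ℝ, W) 𝓘(ℝ, Fin 6 → ℝ) (fun g : L => (φ g : Equiv.Perm (Fin 6 → ℝ)) q) 1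
    have hD : ∀ m : Fin (d + 1), D (w m) 2 = q 1 ^ (m : ℕ) := by
      intro m
      have h1 : HasMFDerivAt 𝓘(ℝ, ℝ) 𝓘(ℝ, W) (fun t => φ.symm (oneParam m t)) 0
          (mfderiv 𝓘(ℝ, ℝ) 𝓘(ℝ, W) (fun t => φ.symm (oneParam m t)) 0) :=
        ((hc m).mdifferentiable (by simp) 0).hasMFDerivAt
      have h2 : HasMFDerivAt 𝓘(ℝ, W) 𝓘(ℝ, Fin 6 → ℝ)
          (fun g : L => (φ g : Equiv.Perm (Fin 6 → ℝ)) q) (φ.symm (oneParam m 0)) D := by
        rw [e0 m]
        exact (hq.mdifferentiable (by simp) 1).hasMFDerivAt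
      have h3 := h2.comp (0 : ℝ) h1
      have h4 : ((fun g : L => (φ g : Equiv.Perm (Fin 6 → ℝ)) q) ∘
          fun t => φ.symm (oneParam m t)) = fun t => sh m t q := by
        ext1 t
        simp only [Function.comp_apply, MulEquiv.apply_symm_apply]
        rfl
      rw [h4] at h3
      let W' : ℝ →L[ℝ] W :=
        mfderiv 𝓘(ℝ, ℝ) 𝓘(ℝ, W) (fun t => φ.symm (oneParam m t)) 0
      have h5' : HasFDerivAt (fun t => sh m t q) (D.comp W') 0 := h3.hasFDerivAt
      have h5 : HasDerivAt (fun t => sh m t q) (D (w m)) 0 := h5'.hasDerivAt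
      have h6 := hasDerivAt_pi.1 h5 2
      have h7 : HasDerivAt (fun t : ℝ => sh m t q 2) (q 1 ^ (m : ℕ)) 0 := by
        simpa [sh] using ((hasDerivAt_id (0 : ℝ)).mul_const (q 1 ^ (m : ℕ))).const_add (q 2)
      exact h6.unique h7
    have h6 := congrArg (fun x : W => D x 2) ha
    simp only [map_sum, map_smul, map_zero, Finset.sum_apply, Pi.smul_apply, hD,
      smul_eq_mul, Pi.zero_apply] at h6
    exact h6
  -- a nonzero polynomial vanishing identically
  let p : Polynomial ℝ := ∑ m : Fin (d + 1), Polynomial.C (a m) * Polynomial.X ^ (m : ℕ)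
  have hp : p = 0 := by
    apply Polynomial.funext
    intro x
    have := key ![0, x, 0, 0, 0, 0]
    simp only [p, Polynomial.eval_finsetSum, Polynomial.eval_mul, Polynomial.eval_C,
      Polynomial.eval_pow, Polynomial.eval_X, Polynomial.eval_zero]
    exact this
  apply hi0
  have h8 : p.coeff (i0 : ℕ) = a i0 := by
    simp only [p, Polynomial.finsetSum_coeff, Polynomial.coeff_C_mul_X_pow]
    rw [Finset.sum_eq_single i0]
    · simp
    · intro b _ hb
      rw [if_neg]
      intro h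
      exact hb (Fin.ext h.symm)
    · simp
  rw [← h8, hp, Polynomial.coeff_zero]

/-- **A singular transitive distribution with infinite-dimensional symmetry group.** On `ℝ⁶` there
is a smooth distribution of constant rank `4` (spanned by four smooth, everywhere linearly
independent vector fields) which is singular transitive, but whose symmetry group is not a
finite-dimensional Lie group. -/
theorem result : ∃ X : Fin 4 → (Fin 6 → ℝ) → (Fin 6 → ℝ),
    (∀ i, ContDiff ℝ ∞ (X i)) ∧ (∀ q, LinearIndependent ℝ (fun i => X i q)) ∧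
      SingularTransitive X ∧ ¬ IsFiniteDimLieGroup (symmetryGroup (distribution X)) :=
  ⟨frame, frame_smooth, frame_linearIndependent, singularTransitive_frame,
    not_isFiniteDimLieGroup⟩

end

end Pool.Agent.Results.MP_27f38a_gt.ProductContact
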